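import Pool.Agent.Lib.MP_d88d68_nt.Final

/-!
# The exact law of the exponents of a fixed odd `m` for `q` modulo `2 ^ N`

`C q n` is the largest odd divisor of `q n + 1`; `expo q m j` is the number of halvings in the first
`j` steps of the trajectory of `m` under `C q`.
-/

namespace Pool.Agent.Results.MP_d88d68_nt.ExponentLaw

open Pool.Agent.Lib.MP_d88d68_nt

/-- Every set `S` of exponents below `N` is the set of partial sums of exactly one odd
`q < 2 ^ N`. -/
theorem result (m N : ℕ) (hm : Odd m) (hN : 1 ≤ N) (S : Finset ℕ) (hS : S ⊆ Finset.Ico 1 N) :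
    ∃! q : ℕ, Odd q ∧ q < 2 ^ N ∧ ∀ t ∈ Finset.Ico 1 N, (t ∈ S ↔ ∃ j, expo q m j = t) :=
  exists_unique_q hm hN S hS

end Pool.Agent.Results.MP_d88d68_nt.ExponentLaw
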