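import Pool.Agent.Lib.MP_d88d68_nt.Final

/-!
# The trajectory of a fixed odd `m` under `C_q` for most odd `q`

`C q n` is the largest odd divisor of `q n + 1`.
-/

namespace Pool.Agent.Results.MP_d88d68_nt.FixedStart

open Pool.Agent.Lib.MP_d88d68_nt

/-- For a fixed odd `m` few odd `q < 2 ^ N` keep the trajectory of `m` below `m q ^ K`. -/
theorem result (m K N : ℕ) (hm : Odd m) :
    {q : ℕ | q < 2 ^ N ∧ Odd q ∧ ∀ j, (C q)^[j] m ≤ m * q ^ K}.ncard ≤
      ∑ i ∈ Finset.range (K + 1), N.choose (i + 1) := by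
  have h := ncard_le_of_finset (P := fun q => Odd q ∧ ∀ j, (C q)^[j] m ≤ m * q ^ K) (N := N)
    (b := ((∑ i ∈ Finset.range (K + 1), N.choose (i + 1) : ℕ) : ℝ)) (fun s hs => by
      exact_mod_cast card_bounded hm K N s fun q hq =>
        ⟨(hs q hq).2.1, (hs q hq).1, (hs q hq).2.2 _⟩)
  exact_mod_cast h

end Pool.Agent.Results.MP_d88d68_nt.FixedStart
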