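import Pool.Agent.Lib.MP_d88d68_nt.Final

/-!
# Few odd `q` have a short cycle of `C_q`

`C q n` is the largest odd divisor of `q n + 1`.
-/

namespace Pool.Agent.Results.MP_d88d68_nt.ShortCycles

open Pool.Agent.Lib.MP_d88d68_nt

/-- At most `N n₀ (n₀ + 1) / 2` of the odd `q < 2 ^ N` have a cycle of length at most `n₀`. -/
theorem result (N n₀ : ℕ) :
    {q : ℕ | q < 2 ^ N ∧ Odd q ∧
      ∃ n m, 1 ≤ n ∧ n ≤ n₀ ∧ Odd m ∧ (C q)^[n] m = m}.ncard ≤ N * (n₀ * (n₀ + 1) / 2) := by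
  have h := ncard_le_of_finset (P := fun q => Odd q ∧
      ∃ n m, 1 ≤ n ∧ n ≤ n₀ ∧ Odd m ∧ (C q)^[n] m = m) (N := N)
    (b := ((N * (n₀ * (n₀ + 1) / 2) : ℕ) : ℝ)) (fun s hs => by
      exact_mod_cast card_cycles N n₀ s fun q hq => ⟨(hs q hq).2.1, (hs q hq).1, (hs q hq).2.2⟩)
  exact_mod_cast h

end Pool.Agent.Results.MP_d88d68_nt.ShortCycles
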