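import Pool.Agent.Lib.MP_d88d68_nt.DFinal

/-!
# The trajectories of `C_q` for most odd `q`

`C q n` is the largest odd divisor of `q n + 1`.
-/

namespace Pool.Agent.Results.MP_d88d68_nt.TypicalMultipliers

open Pool.Agent.Lib.MP_d88d68_nt

/-- For almost all odd `q` every trajectory of `C_q` which starts at an odd `m ≤ q ^ K` expands:
after `r + 1 + j` steps it is larger than `q ^ j`, for all `j ≤ J`. -/
theorem result (K r J N : ℕ) (hK : 1 ≤ K) (hr : 1 ≤ r) :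
    ({q : ℕ | q < 2 ^ N ∧ Odd q ∧
        ∃ m, Odd m ∧ m ≤ q ^ K ∧ ∃ j ≤ J, (C q)^[r + 1 + j] m ≤ q ^ j}.ncard : ℝ) ≤
      4 * K * (K + r) * N * (8 * (K + r) ^ 3) ^ (r + J) * 2 ^ ((N : ℝ) * (1 - r / (K + r) ^ 2)) :=
  finset_of_ncard fun s hs => card_det hK hr s hs

end Pool.Agent.Results.MP_d88d68_nt.TypicalMultipliers
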